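import Mathlib

set_option linter.unusedVariables false
set_option linter.unusedSectionVars false

namespace Pool.Agent.Results.MP_401231_co.NoLComplement

/-! ### Definitions -/

/-- The L-shape with corner `(x, y)`, top end `(x, t)` and right end `(r, y)`. -/
def LShape (x y t r : ℝ) : Set (ℝ × ℝ) :=
  {p | p.1 = x ∧ y ≤ p.2 ∧ p.2 ≤ t} ∪ {p | p.2 = y ∧ x ≤ p.1 ∧ p.1 ≤ r}

/-- `H` is an {L}-graph. -/
def IsLGraph {W : Type} (H : SimpleGraph W) : Prop :=
  ∃ x y t r : W → ℝ, (∀ w, y w < t w ∧ x w < r w) ∧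
    ∀ u v, u ≠ v → (H.Adj u v ↔
      (LShape (x u) (y u) (t u) (r u) ∩ LShape (x v) (y v) (t v) (r v)).Nonempty)

/-- `G` has a straight-line plane drawing: distinct vertices get distinct points, an edge segment
contains no vertex other than its ends, and a point common to two different edge segments is
a common end of both. -/
def HasPlaneDrawing {V : Type} (G : SimpleGraph V) : Prop :=
  ∃ p : V → ℝ × ℝ, Function.Injective p ∧
    (∀ a b w, G.Adj a b → p w ∈ segment ℝ (p a) (p b) → w = a ∨ w = b) ∧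
    (∀ a b c d, G.Adj a b → G.Adj c d → s(a, b) ≠ s(c, d) →
      ∀ q, q ∈ segment ℝ (p a) (p b) → q ∈ segment ℝ (p c) (p d) →
        (q = p a ∨ q = p b) ∧ (q = p c ∨ q = p d))

/-- The edges of `G`, each written once, as a pair `(u, v)` with `u < v`. -/
abbrev OEdge {n : ℕ} (G : SimpleGraph (Fin n)) : Type :=
  {p : Fin n × Fin n // p.1 < p.2 ∧ G.Adj p.1 p.2}

/-- Vertices of the subdivision in which edge `e` gets `k e` new internal vertices. -/
abbrev SubV {n : ℕ} (G : SimpleGraph (Fin n)) (k : OEdge G → ℕ) : Type :=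
  Fin n ⊕ (Σ e : OEdge G, Fin (k e))

/-- `x` is the `j`-th vertex (`0 ≤ j ≤ k e + 1`) of the path that replaces the edge `e`. -/
def AtPos {n : ℕ} (G : SimpleGraph (Fin n)) (k : OEdge G → ℕ) (e : OEdge G)
    (x : SubV G k) (j : ℕ) : Prop :=
  (x = Sum.inl e.1.1 ∧ j = 0) ∨ (∃ i : Fin (k e), x = Sum.inr ⟨e, i⟩ ∧ j = i.val + 1) ∨
    (x = Sum.inl e.1.2 ∧ j = k e + 1)

/-- The subdivision of `G` in which every edge `e` is replaced by a path with `k e` internal
vertices. -/
def subdivision {n : ℕ} (G : SimpleGraph (Fin n)) (k : OEdge G → ℕ) : SimpleGraph (SubV G k) where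
  Adj x y := x ≠ y ∧ ∃ e j, (AtPos G k e x j ∧ AtPos G k e y (j + 1)) ∨
    (AtPos G k e y j ∧ AtPos G k e x (j + 1))
  symm := ⟨fun x y h => ⟨h.1.symm, by
    obtain ⟨_, e, j, h | h⟩ := h
    · exact ⟨e, j, Or.inr h⟩
    · exact ⟨e, j, Or.inl h⟩⟩⟩
  loopless := ⟨fun x h => h.1 rfl⟩

/-! ### The graph: a path on `35` vertices with seven chords closing 5-cycles -/

/-- the base graph -/
def GG : SimpleGraph (Fin 35) where
  Adj u v := (u.val + 1 = v.val ∨ v.val + 1 = u.val) ∨ (u.val % 5 = 0 ∧ v.val = u.val + 4) ∨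
    (v.val % 5 = 0 ∧ u.val = v.val + 4)
  symm := ⟨fun u v h => by omega⟩
  loopless := ⟨fun u h => by omega⟩

theorem GG_adj (u v : Fin 35) : GG.Adj u v ↔ ((u.val + 1 = v.val ∨ v.val + 1 = u.val) ∨
    (u.val % 5 = 0 ∧ v.val = u.val + 4) ∨ (v.val % 5 = 0 ∧ u.val = v.val + 4)) := Iff.rfl

theorem GG_connected : GG.Connected := by
  have h0 : ∀ m : ℕ, ∀ hm : m < 35, GG.Reachable ⟨0, by omega⟩ ⟨m, hm⟩ := by
    intro m
    induction m with
    | zero => intro hm; exact SimpleGraph.Reachable.refl _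
    | succ m ih =>
      intro hm
      refine (ih (by omega)).trans (SimpleGraph.Adj.reachable ?_)
      rw [GG_adj]
      simp
  have : Nonempty (Fin 35) := ⟨⟨0, by omega⟩⟩
  exact SimpleGraph.Connected.mk (fun u v => ((h0 u.val u.isLt).symm).trans (h0 v.val v.isLt))

theorem seg_par (a b s : ℝ) (q : ℝ × ℝ) (hq : q ∈ segment ℝ ((a, a ^ 2) : ℝ × ℝ) (b, b ^ 2)) :
    ∃ s : ℝ, 0 ≤ s ∧ s ≤ 1 ∧ q.1 = (1 - s) * a + s * b ∧ q.2 = (1 - s) * a ^ 2 + s * b ^ 2 := by
  obtain ⟨α, β, hα, hβ, hαβ, rfl⟩ := hq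
  refine ⟨β, hβ, by linarith, ?_, ?_⟩
  · have : α = 1 - β := by linarith
    simp [this]
  · have : α = 1 - β := by linarith
    simp [this]

theorem GG_sign (a b c d : Fin 35) (h1 : GG.Adj a b) (h2 : GG.Adj c d) :
    (0 ≤ ((c.val : ℝ) - a.val) * (c.val - b.val) ∧ 0 ≤ ((d.val : ℝ) - a.val) * (d.val - b.val)) ∨
    (((c.val : ℝ) - a.val) * (c.val - b.val) ≤ 0 ∧ ((d.val : ℝ) - a.val) * (d.val - b.val) ≤ 0) := by
  rw [GG_adj] at h1 h2
  have key : ∀ a b c d : ℕ, a < b → ((c ≤ a ∨ b ≤ c) ∧ (d ≤ a ∨ b ≤ d)) ∨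
      ((a ≤ c ∧ c ≤ b) ∧ (a ≤ d ∧ d ≤ b)) →
      (0 ≤ ((c : ℝ) - a) * (c - b) ∧ 0 ≤ ((d : ℝ) - a) * (d - b)) ∨
      (((c : ℝ) - a) * (c - b) ≤ 0 ∧ ((d : ℝ) - a) * (d - b) ≤ 0) := by
    intro a b c d hab h
    have hab' : (a : ℝ) < b := by exact_mod_cast hab
    have pos : ∀ c : ℕ, (c ≤ a ∨ b ≤ c) → 0 ≤ ((c : ℝ) - a) * (c - b) := by
      intro c hc
      rcases hc with hc | hc
      · have : (c : ℝ) ≤ a := by exact_mod_cast hc
        exact mul_nonneg_of_nonpos_of_nonpos (by linarith) (by linarith)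
      · have : (b : ℝ) ≤ c := by exact_mod_cast hc
        exact mul_nonneg (by linarith) (by linarith)
    have neg : ∀ c : ℕ, (a ≤ c ∧ c ≤ b) → ((c : ℝ) - a) * (c - b) ≤ 0 := by
      intro c hc
      have h1 : (a : ℝ) ≤ c := by exact_mod_cast hc.1
      have h2 : (c : ℝ) ≤ b := by exact_mod_cast hc.2
      exact mul_nonpos_of_nonneg_of_nonpos (by linarith) (by linarith)
    rcases h with ⟨h1, h2⟩ | ⟨h1, h2⟩
    · exact Or.inl ⟨pos c h1, pos d h2⟩
    · exact Or.inr ⟨neg c h1, neg d h2⟩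
  rcases Nat.lt_trichotomy a.val b.val with hab | hab | hab
  · exact key a.val b.val c.val d.val hab (by omega)
  · omega
  · have := key b.val a.val c.val d.val hab (by omega)
    rw [mul_comm ((c.val : ℝ) - a.val), mul_comm ((d.val : ℝ) - a.val)]
    exact this

theorem GG_planar : HasPlaneDrawing GG := by
  refine ⟨fun i => ((i.val : ℝ), (i.val : ℝ) ^ 2), ?_, ?_, ?_⟩
  · intro a b hab
    have := congrArg Prod.fst hab
    simp only at this
    exact Fin.ext (by exact_mod_cast this)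
  · intro a b w hab hw
    obtain ⟨s, hs0, hs1, e1, e2⟩ := seg_par _ _ 0 _ hw
    simp only at e1 e2
    have h1 : ((w.val : ℝ) - a.val) * (w.val - b.val) = 0 := by
      have : ((w.val : ℝ) - a.val) * (w.val - b.val) =
          (w.val : ℝ) ^ 2 - (a.val + b.val) * w.val + a.val * b.val := by ring
      rw [this, e2]
      have e3 : (a.val + b.val : ℝ) * w.val = (a.val + b.val) * ((1 - s) * a.val + s * b.val) := by
        rw [← e1]
      rw [e3]
      ring
    rcases mul_eq_zero.1 h1 with h | h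
    · left
      have : (w.val : ℝ) = a.val := by linarith
      exact Fin.ext (by exact_mod_cast this)
    · right
      have : (w.val : ℝ) = b.val := by linarith
      exact Fin.ext (by exact_mod_cast this)
  · have main : ∀ a b c d : Fin 35, GG.Adj a b → GG.Adj c d → s(a, b) ≠ s(c, d) →
        ∀ q : ℝ × ℝ, q ∈ segment ℝ (((a.val : ℝ), (a.val : ℝ) ^ 2) : ℝ × ℝ)
          ((b.val : ℝ), (b.val : ℝ) ^ 2) →
        q ∈ segment ℝ (((c.val : ℝ), (c.val : ℝ) ^ 2) : ℝ × ℝ) ((d.val : ℝ), (d.val : ℝ) ^ 2) →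
        (q = ((c.val : ℝ), (c.val : ℝ) ^ 2) ∨ q = ((d.val : ℝ), (d.val : ℝ) ^ 2)) := by
      intro a b c d hab hcd hne q hq1 hq2
      obtain ⟨s, hs0, hs1, e1, e2⟩ := seg_par _ _ 0 _ hq1
      obtain ⟨t, ht0, ht1, f1, f2⟩ := seg_par _ _ 0 _ hq2
      have hz : (1 - t) * (((c.val : ℝ) - a.val) * (c.val - b.val)) +
          t * (((d.val : ℝ) - a.val) * (d.val - b.val)) = 0 := by
        have h1 : q.2 - (a.val + b.val) * q.1 + a.val * b.val = 0 := by
          rw [e1, e2]
          ring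
        have h2 : q.2 - (a.val + b.val) * q.1 + a.val * b.val =
            (1 - t) * (((c.val : ℝ) - a.val) * (c.val - b.val)) +
          t * (((d.val : ℝ) - a.val) * (d.val - b.val)) := by
          rw [f1, f2]
          ring
        linarith
      have hboth : (1 - t) * (((c.val : ℝ) - a.val) * (c.val - b.val)) = 0 ∧
          t * (((d.val : ℝ) - a.val) * (d.val - b.val)) = 0 := by
        rcases GG_sign a b c d hab hcd with ⟨g1, g2⟩ | ⟨g1, g2⟩
        · have i1 := mul_nonneg (by linarith : 0 ≤ 1 - t) g1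
          have i2 := mul_nonneg ht0 g2
          constructor <;> linarith
        · have i1 := mul_nonpos_of_nonneg_of_nonpos (by linarith : 0 ≤ 1 - t) g1
          have i2 := mul_nonpos_of_nonneg_of_nonpos ht0 g2
          constructor <;> linarith
      by_cases hc : ((c.val : ℝ) - a.val) * (c.val - b.val) = 0
      · by_cases hd : ((d.val : ℝ) - a.val) * (d.val - b.val) = 0
        · exfalso
          have hc' : c = a ∨ c = b := by
            rcases mul_eq_zero.1 hc with h | h
            · left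
              exact Fin.ext (by exact_mod_cast (by linarith : (c.val : ℝ) = a.val))
            · right
              exact Fin.ext (by exact_mod_cast (by linarith : (c.val : ℝ) = b.val))
          have hd' : d = a ∨ d = b := by
            rcases mul_eq_zero.1 hd with h | h
            · left
              exact Fin.ext (by exact_mod_cast (by linarith : (d.val : ℝ) = a.val))
            · right
              exact Fin.ext (by exact_mod_cast (by linarith : (d.val : ℝ) = b.val))
          have hcd' := hcd.ne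
          apply hne
          rw [Sym2.eq_iff]
          rcases hc' with rfl | rfl <;> rcases hd' with rfl | rfl
          · exact absurd rfl hcd'
          · exact Or.inl ⟨rfl, rfl⟩
          · exact Or.inr ⟨rfl, rfl⟩
          · exact absurd rfl hcd'
        · left
          have ht : t = 0 := by
            rcases mul_eq_zero.1 hboth.2 with h | h
            · exact h
            · exact absurd h hd
          apply Prod.ext
          · rw [f1, ht]; ring
          · rw [f2, ht]; ring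
      · right
        have ht : 1 - t = 0 := by
          rcases mul_eq_zero.1 hboth.1 with h | h
          · exact h
          · exact absurd h hc
        have ht' : t = 1 := by linarith
        apply Prod.ext
        · rw [f1, ht']; ring
        · rw [f2, ht']; ring
    intro a b c d hab hcd hne q hq1 hq2
    exact ⟨main c d a b hcd hab hne.symm q hq2 hq1, main a b c d hab hcd hne q hq1 hq2⟩

theorem GG_no_triangle (a b c : Fin 35) (h1 : GG.Adj a b) (h2 : GG.Adj b c) (h3 : GG.Adj a c) :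
    False := by
  rw [GG_adj] at *
  omega

/-! ### Facts on subdivisions of `GG` -/

section Sub
variable (k : OEdge GG → ℕ)

/-- block label -/
def lab : SubV GG k → ℕ
  | Sum.inl u => u.val / 5
  | Sum.inr s => s.1.1.1.val / 5

theorem lab_atPos (e : OEdge GG) (x : SubV GG k) (j : ℕ) (h : AtPos GG k e x j) :
    lab k x = e.1.1.val / 5 ∨ lab k x = e.1.2.val / 5 := by
  rcases h with ⟨rfl, _⟩ | ⟨i, rfl, _⟩ | ⟨rfl, _⟩
  · exact Or.inl rfl
  · exact Or.inl rfl
  · exact Or.inr rfl

theorem lab_adj (x y : SubV GG k) (h : (subdivision GG k).Adj x y) :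
    lab k x ≤ lab k y + 1 ∧ lab k y ≤ lab k x + 1 := by
  obtain ⟨_, e, j, h⟩ := h
  have hx : lab k x = e.1.1.val / 5 ∨ lab k x = e.1.2.val / 5 := by
    rcases h with h | h
    · exact lab_atPos k e x _ h.1
    · exact lab_atPos k e x _ h.2
  have hy : lab k y = e.1.1.val / 5 ∨ lab k y = e.1.2.val / 5 := by
    rcases h with h | h
    · exact lab_atPos k e y _ h.2
    · exact lab_atPos k e y _ h.1
  have he := e.2.2
  rw [GG_adj] at he
  omega

theorem lab_lt (x : SubV GG k) : lab k x < 7 := by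
  rcases x with u | s
  · have := u.isLt
    show u.val / 5 < 7
    omega
  · have := s.1.1.1.isLt
    show s.1.1.1.val / 5 < 7
    omega

/-- two base vertices adjacent in the subdivision are adjacent in the graph -/
theorem inl_adj (u v : Fin 35) (h : (subdivision GG k).Adj (Sum.inl u) (Sum.inl v)) :
    GG.Adj u v := by
  obtain ⟨hne, e, j, h⟩ := h
  have he := e.2.2
  rcases h with ⟨h1, h2⟩ | ⟨h1, h2⟩
  · rcases h1 with ⟨h1, _⟩ | ⟨i, h1, _⟩ | ⟨h1, hj⟩
    · rcases h2 with ⟨h2, _⟩ | ⟨i, h2, _⟩ | ⟨h2, _⟩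
      · omega
      · cases h2
      · cases h1; cases h2; exact he
    · cases h1
    · rcases h2 with ⟨h2, _⟩ | ⟨i, h2, _⟩ | ⟨h2, _⟩
      · omega
      · cases h2
      · cases h1; cases h2; exact absurd rfl hne
  · rcases h1 with ⟨h1, _⟩ | ⟨i, h1, _⟩ | ⟨h1, hj⟩
    · rcases h2 with ⟨h2, _⟩ | ⟨i, h2, _⟩ | ⟨h2, _⟩
      · omega
      · cases h2
      · cases h1; cases h2; exact he.symm
    · cases h1
    · rcases h2 with ⟨h2, _⟩ | ⟨i, h2, _⟩ | ⟨h2, _⟩
      · omega
      · cases h2
      · cases h1; cases h2; exact absurd rfl hne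

theorem atPos_inr (e e' : OEdge GG) (i : Fin (k e)) (j : ℕ)
    (h : AtPos GG k e' (Sum.inr ⟨e, i⟩) j) : e' = e ∧ j = i.val + 1 := by
  rcases h with ⟨h, _⟩ | ⟨i', h, hj⟩ | ⟨h, _⟩
  · cases h
  · cases h
    exact ⟨rfl, hj⟩
  · cases h

/-- neighbours of an internal vertex -/
theorem inr_nbr (e : OEdge GG) (i : Fin (k e)) (y : SubV GG k)
    (h : (subdivision GG k).Adj (Sum.inr ⟨e, i⟩) y) :
    AtPos GG k e y i.val ∨ AtPos GG k e y (i.val + 2) := by
  obtain ⟨_, e', j, h | h⟩ := h
  · obtain ⟨rfl, rfl⟩ := atPos_inr k e e' i j h.1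
    exact Or.inr h.2
  · obtain ⟨rfl, hj⟩ := atPos_inr k e e' i _ h.2
    have : j = i.val := by omega
    subst this
    exact Or.inl h.1

theorem atPos_unique (e : OEdge GG) (x y : SubV GG k) (j : ℕ) (h1 : AtPos GG k e x j)
    (h2 : AtPos GG k e y j) : x = y := by
  rcases h1 with ⟨rfl, h1⟩ | ⟨i, rfl, h1⟩ | ⟨rfl, h1⟩ <;>
    rcases h2 with ⟨rfl, h2⟩ | ⟨i', rfl, h2⟩ | ⟨rfl, h2⟩
  · rfl
  · omega
  · omega
  · omega
  · have : i = i' := Fin.ext (by omega)
    rw [this]
  · have := i.isLt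
    omega
  · omega
  · have := i'.isLt
    omega
  · rfl

theorem atPos_inj (e : OEdge GG) (x : SubV GG k) (j j' : ℕ) (h1 : AtPos GG k e x j)
    (h2 : AtPos GG k e x j') : j = j' := by
  have hne : e.1.1 ≠ e.1.2 := e.2.2.ne
  rcases h1 with ⟨rfl, h1⟩ | ⟨i, rfl, h1⟩ | ⟨rfl, h1⟩ <;>
    rcases h2 with ⟨h, h2⟩ | ⟨i', h, h2⟩ | ⟨h, h2⟩
  · omega
  · cases h
  · simp only [Sum.inl.injEq] at h
    exact absurd h hne
  · cases h
  · simp only [Sum.inr.injEq, Sigma.mk.injEq, heq_eq_eq, true_and] at h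
    subst h
    omega
  · cases h
  · simp only [Sum.inl.injEq] at h
    exact absurd h.symm hne
  · cases h
  · omega

theorem no_triangle_inr (hk : ∀ e, Even (k e)) (e : OEdge GG) (i : Fin (k e)) (y z : SubV GG k)
    (h1 : (subdivision GG k).Adj (Sum.inr ⟨e, i⟩) y)
    (h2 : (subdivision GG k).Adj (Sum.inr ⟨e, i⟩) z)
    (h3 : (subdivision GG k).Adj y z) : False := by
  have key : ∀ y z : SubV GG k, (subdivision GG k).Adj y z → AtPos GG k e y i.val →
      AtPos GG k e z (i.val + 2) → False := by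
    intro y z h3 hy hz
    -- is one of them internal?
    have hyz : (∃ i' : Fin (k e), y = Sum.inr ⟨e, i'⟩) ∨ (∃ i' : Fin (k e), z = Sum.inr ⟨e, i'⟩) ∨
        (i.val = 0 ∧ i.val + 2 = k e + 1) := by
      rcases hy with ⟨rfl, hy⟩ | ⟨i', rfl, hy⟩ | ⟨rfl, hy⟩
      · rcases hz with ⟨rfl, hz⟩ | ⟨i', rfl, hz⟩ | ⟨rfl, hz⟩
        · omega
        · exact Or.inr (Or.inl ⟨i', rfl⟩)
        · exact Or.inr (Or.inr ⟨hy, hz⟩)
      · exact Or.inl ⟨i', rfl⟩
      · have := i.isLt
        omega
    rcases hyz with ⟨i', rfl⟩ | ⟨i', rfl⟩ | ⟨h0, h1⟩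
    · have hi' := (atPos_inr k e e i' _ hy).2
      rcases inr_nbr k e i' z h3 with h | h
      · have := atPos_inj k e z _ _ h hz
        omega
      · have := atPos_inj k e z _ _ h hz
        omega
    · have hi' := (atPos_inr k e e i' _ hz).2
      rcases inr_nbr k e i' y h3.symm with h | h
      · have := atPos_inj k e y _ _ h hy
        omega
      · have := atPos_inj k e y _ _ h hy
        omega
    · have := hk e
      have h2 : k e = 1 := by omega
      rw [h2] at this
      exact absurd this (by decide)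
  rcases inr_nbr k e i y h1 with hy | hy <;> rcases inr_nbr k e i z h2 with hz | hz
  · exact h3.1 (atPos_unique k e y z _ hy hz)
  · exact key y z h3 hy hz
  · exact key z y h3.symm hz hy
  · exact h3.1 (atPos_unique k e y z _ hy hz)

theorem no_triangle (hk : ∀ e, Even (k e)) (x y z : SubV GG k)
    (h1 : (subdivision GG k).Adj x y) (h2 : (subdivision GG k).Adj x z)
    (h3 : (subdivision GG k).Adj y z) : False := by
  rcases x with a | ⟨e, i⟩
  · rcases y with b | ⟨e, i⟩
    · rcases z with c | ⟨e, i⟩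
      · exact GG_no_triangle a b c (inl_adj k a b h1) (inl_adj k b c h3) (inl_adj k a c h2)
      · exact no_triangle_inr k hk e i _ _ h2.symm h3.symm h1
    · exact no_triangle_inr k hk e i _ _ h1.symm h3 h2
  · exact no_triangle_inr k hk e i _ _ h1 h2 h3

/-- the `j`-th vertex of the path of `e` -/
def pth (e : OEdge GG) (j : ℕ) : SubV GG k :=
  if h0 : j = 0 then Sum.inl e.1.1 else
    if h : j - 1 < k e then Sum.inr ⟨e, ⟨j - 1, h⟩⟩ else Sum.inl e.1.2

theorem pth_atPos (e : OEdge GG) (j : ℕ) (hj : j ≤ k e + 1) : AtPos GG k e (pth k e j) j := by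
  unfold pth
  by_cases h0 : j = 0
  · rw [dif_pos h0]
    exact Or.inl ⟨rfl, h0⟩
  · rw [dif_neg h0]
    by_cases h : j - 1 < k e
    · rw [dif_pos h]
      refine Or.inr (Or.inl ⟨⟨j - 1, h⟩, rfl, ?_⟩)
      simp only
      omega
    · rw [dif_neg h]
      exact Or.inr (Or.inr ⟨rfl, by omega⟩)

theorem pth_adj (e : OEdge GG) (j : ℕ) (hj : j ≤ k e) :
    (subdivision GG k).Adj (pth k e j) (pth k e (j + 1)) := by
  have h1 := pth_atPos k e j (by omega)
  have h2 := pth_atPos k e (j + 1) (by omega)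
  refine ⟨?_, e, j, Or.inl ⟨h1, h2⟩⟩
  intro h
  rw [← h] at h2
  have := atPos_inj k e _ _ _ h1 h2
  omega

theorem pth_lab (e : OEdge GG) (j : ℕ) (c : ℕ) (h1 : e.1.1.val / 5 = c) (h2 : e.1.2.val / 5 = c)
    (hj : j ≤ k e + 1) : lab k (pth k e j) = c := by
  rcases lab_atPos k e _ j (pth_atPos k e j hj) with h | h
  · rw [h, h1]
  · rw [h, h2]

/-- a 2-colouring of one block gives different colours to the ends of an edge -/
theorem ends_differ (hk : ∀ e, Even (k e)) (c : ℕ) (col : SubV GG k → Prop)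
    (hcol : ∀ x y, lab k x = c → lab k y = c → (subdivision GG k).Adj x y → (col x ↔ ¬ col y))
    (e : OEdge GG) (h1 : e.1.1.val / 5 = c) (h2 : e.1.2.val / 5 = c) :
    (col (Sum.inl e.1.1) ↔ ¬ col (Sum.inl e.1.2)) := by
  have hind : ∀ j, j ≤ k e + 1 →
      ((Even j → (col (pth k e j) ↔ col (pth k e 0))) ∧
        (¬ Even j → (col (pth k e j) ↔ ¬ col (pth k e 0)))) := by
    intro j
    induction j with
    | zero =>
      intro _
      exact ⟨fun _ => Iff.rfl, fun h => absurd Even.zero h⟩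
    | succ j ih =>
      intro hj
      obtain ⟨ih1, ih2⟩ := ih (by omega)
      have hstep := hcol (pth k e j) (pth k e (j + 1)) (pth_lab k e j c h1 h2 (by omega))
        (pth_lab k e (j + 1) c h1 h2 hj) (pth_adj k e j (by omega))
      constructor
      · intro hev
        have hnj : ¬ Even j := by
          rw [Nat.even_add_one] at hev
          exact hev
        have := ih2 hnj
        tauto
      · intro hev
        have hj' : Even j := by
          rw [Nat.even_add_one] at hev
          exact not_not.1 hev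
        have := ih1 hj'
        tauto
  have hlast := (hind (k e + 1) le_rfl).2 (by
    rw [Nat.even_add_one, not_not]
    exact hk e)
  have e0 : pth k e 0 = Sum.inl e.1.1 := by simp [pth]
  have e1 : pth k e (k e + 1) = Sum.inl e.1.2 := by simp [pth]
  rw [e0, e1] at hlast
  tauto

theorem block_not_bip (hk : ∀ e, Even (k e)) (c : ℕ) (hc : c < 7) (col : SubV GG k → Prop)
    (hcol : ∀ x y, lab k x = c → lab k y = c → (subdivision GG k).Adj x y → (col x ↔ ¬ col y)) :
    False := by
  have edge : ∀ a b : ℕ, ∀ ha : a < 35, ∀ hb : b < 35, a < b → a / 5 = c → b / 5 = c →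
      GG.Adj ⟨a, ha⟩ ⟨b, hb⟩ →
      (col (Sum.inl ⟨a, ha⟩) ↔ ¬ col (Sum.inl ⟨b, hb⟩)) := by
    intro a b ha hb hab h1 h2 hadj
    exact ends_differ k hk c col hcol ⟨(⟨a, ha⟩, ⟨b, hb⟩), hab, hadj⟩ h1 h2
  have e1 := edge (5 * c) (5 * c + 1) (by omega) (by omega) (by omega) (by omega) (by omega)
    (by rw [GG_adj]; simp)
  have e2 := edge (5 * c + 1) (5 * c + 2) (by omega) (by omega) (by omega) (by omega) (by omega)
    (by rw [GG_adj]; simp)
  have e3 := edge (5 * c + 2) (5 * c + 3) (by omega) (by omega) (by omega) (by omega) (by omega)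
    (by rw [GG_adj]; simp)
  have e4 := edge (5 * c + 3) (5 * c + 4) (by omega) (by omega) (by omega) (by omega) (by omega)
    (by rw [GG_adj]; simp)
  have e5 := edge (5 * c) (5 * c + 4) (by omega) (by omega) (by omega) (by omega) (by omega)
    (by rw [GG_adj]; simp)
  tauto

end Sub

/-! ### L-shapes -/

theorem LShape_left {x y t r : ℝ} (hr : x < r) {q : ℝ × ℝ} (hq : q ∈ LShape x y t r) :
    x ≤ q.1 ∧ q.1 ≤ r := by
  rcases hq with ⟨h1, _, _⟩ | ⟨_, h1, h2⟩
  · rw [h1]; exact ⟨le_rfl, hr.le⟩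
  · exact ⟨h1, h2⟩

theorem LShape_low {x y t r : ℝ} (ht : y < t) {q : ℝ × ℝ} (hq : q ∈ LShape x y t r) :
    y ≤ q.2 ∧ q.2 ≤ t := by
  rcases hq with ⟨_, h1, h2⟩ | ⟨h1, _, _⟩
  · exact ⟨h1, h2⟩
  · rw [h1]; exact ⟨le_rfl, ht.le⟩

theorem LShape_disj {x y t r x' y' t' r' : ℝ} (ht : y' < t') (hr : x' < r') (hx : x < x')
    (hy : y < y') : ¬ (LShape x y t r ∩ LShape x' y' t' r').Nonempty := by
  rintro ⟨q, h1, h2⟩
  have a1 := (LShape_left hr h2).1
  have a2 := (LShape_low ht h2).1
  rcases h1 with ⟨h, _, _⟩ | ⟨h, _, _⟩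
  · linarith
  · linarith

theorem LShape_meet {x y t r x' y' t' r' : ℝ} (hyt : y < t) (hxr : x < r) (hx : x ≤ x')
    (hy : y' ≤ y) (h1 : x' ≤ r) (h2 : y ≤ t') :
    (LShape x y t r ∩ LShape x' y' t' r').Nonempty :=
  ⟨(x', y), Or.inr ⟨rfl, hx, h1⟩, Or.inl ⟨rfl, hy, h2⟩⟩

theorem LShape_meet_same {x y t r x' y' t' r' : ℝ} (ht' : y' < t') (hx : x = x') (hy : y ≤ y')
    (h : y' ≤ t) : (LShape x y t r ∩ LShape x' y' t' r').Nonempty :=
  ⟨(x, y'), Or.inl ⟨rfl, hy, h⟩, Or.inl ⟨hx, le_rfl, ht'.le⟩⟩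

theorem not_LGraph (k : OEdge GG → ℕ) (hk : ∀ e, Even (k e)) :
    ¬ IsLGraph (subdivision GG k)ᶜ := by
  rintro ⟨x, y, t, r, hpos, hrep⟩
  have : Nonempty (SubV GG k) := ⟨Sum.inl 0⟩
  obtain ⟨z, hz⟩ := Finite.exists_max x
  obtain ⟨w, hw⟩ := Finite.exists_max y
  -- full right arms
  have hR : ∀ u, ¬ (subdivision GG k).Adj u z → x z ≤ r u := by
    intro u hu
    by_cases huz : u = z
    · rw [huz]; exact (hpos z).2.le
    · have hadj : (subdivision GG k)ᶜ.Adj u z := by
        rw [SimpleGraph.compl_adj]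
        exact ⟨huz, hu⟩
      obtain ⟨q, h1, h2⟩ := (hrep u z huz).1 hadj
      exact (LShape_left (hpos z).2 h2).1.trans (LShape_left (hpos u).2 h1).2
  have hT : ∀ u, ¬ (subdivision GG k).Adj u w → y w ≤ t u := by
    intro u hu
    by_cases huw : u = w
    · rw [huw]; exact (hpos w).1.le
    · have hadj : (subdivision GG k)ᶜ.Adj u w := by
        rw [SimpleGraph.compl_adj]
        exact ⟨huw, hu⟩
      obtain ⟨q, h1, h2⟩ := (hrep u w huw).1 hadj
      exact (LShape_low (hpos w).1 h2).1.trans (LShape_low (hpos u).1 h1).2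
  -- a block away from `z` and `w`
  have hz7 := lab_lt k z
  have hw7 := lab_lt k w
  obtain ⟨c, hc7, hcz, hcw⟩ : ∃ c, c < 7 ∧ (c + 2 ≤ lab k z ∨ lab k z + 2 ≤ c) ∧
      (c + 2 ≤ lab k w ∨ lab k w + 2 ≤ c) := by
    generalize lab k z = a at hz7
    generalize lab k w = b at hw7
    interval_cases a <;> interval_cases b <;>
      first
        | exact ⟨0, by omega, by omega, by omega⟩
        | exact ⟨1, by omega, by omega, by omega⟩
        | exact ⟨2, by omega, by omega, by omega⟩
        | exact ⟨3, by omega, by omega, by omega⟩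
        | exact ⟨4, by omega, by omega, by omega⟩
        | exact ⟨5, by omega, by omega, by omega⟩
        | exact ⟨6, by omega, by omega, by omega⟩
  have hgz : ∀ u, lab k u = c → ¬ (subdivision GG k).Adj u z := by
    intro u hu hadj
    have := lab_adj k u z hadj
    omega
  have hgw : ∀ u, lab k u = c → ¬ (subdivision GG k).Adj u w := by
    intro u hu hadj
    have := lab_adj k u w hadj
    omega
  -- adjacency inside the block is comparability
  have hcomp1 : ∀ u v, lab k u = c → lab k v = c → (subdivision GG k).Adj u v →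
      (x u < x v ∧ y u < y v) ∨ (x v < x u ∧ y v < y u) := by
    intro u v hu hv hadj
    have hne : u ≠ v := hadj.ne
    have hemp : ¬ (LShape (x u) (y u) (t u) (r u) ∩ LShape (x v) (y v) (t v) (r v)).Nonempty := by
      intro h
      have := (hrep u v hne).2 h
      rw [SimpleGraph.compl_adj] at this
      exact this.2 hadj
    have ru := hR u (hgz u hu)
    have rv := hR v (hgz v hv)
    have tu := hT u (hgw u hu)
    have tv := hT v (hgw v hv)
    have zu := hz u
    have zv := hz v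
    have wu := hw u
    have wv := hw v
    by_contra hcon
    rw [not_or] at hcon
    obtain ⟨c1, c2⟩ := hcon
    apply hemp
    rcases lt_trichotomy (x u) (x v) with hx | hx | hx
    · have hy : y v ≤ y u := by
        by_contra h
        exact c1 ⟨hx, not_le.1 h⟩
      exact LShape_meet (hpos u).1 (hpos u).2 hx.le hy (zv.trans ru) (wu.trans tv)
    · rcases le_total (y u) (y v) with hy | hy
      · exact LShape_meet_same (hpos v).1 hx hy (wv.trans tu)
      · rw [Set.inter_comm]
        exact LShape_meet_same (hpos u).1 hx.symm hy (wu.trans tv)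
    · have hy : y u ≤ y v := by
        by_contra h
        exact c2 ⟨hx, not_le.1 h⟩
      rw [Set.inter_comm]
      exact LShape_meet (hpos v).1 (hpos v).2 hx.le hy (zu.trans rv) (wv.trans tu)
  have hcomp2 : ∀ u v, x u < x v → y u < y v → (subdivision GG k).Adj u v := by
    intro u v hx hy
    have hne : u ≠ v := by
      rintro rfl
      exact lt_irrefl _ hx
    by_contra hadj
    have h1 : (subdivision GG k)ᶜ.Adj u v := by
      rw [SimpleGraph.compl_adj]
      exact ⟨hne, hadj⟩
    exact LShape_disj (hpos v).1 (hpos v).2 hx hy ((hrep u v hne).1 h1)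
  -- colour by having something below
  refine block_not_bip k hk c hc7 (fun v => ∃ u, lab k u = c ∧ x u < x v ∧ y u < y v) ?_
  have half : ∀ u v, lab k u = c → lab k v = c → x u < x v → y u < y v →
      ¬ ∃ s, lab k s = c ∧ x s < x u ∧ y s < y u := by
    rintro u v hu hv hx hy ⟨s, hs, hsx, hsy⟩
    exact no_triangle k hk s u v (hcomp2 s u hsx hsy)
      (hcomp2 s v (hsx.trans hx) (hsy.trans hy)) (hcomp2 u v hx hy)
  intro u v hu hv hadj
  rcases hcomp1 u v hu hv hadj with ⟨hx, hy⟩ | ⟨hx, hy⟩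
  · have h1 := half u v hu hv hx hy
    have h2 : ∃ s, lab k s = c ∧ x s < x v ∧ y s < y v := ⟨u, hu, hx, hy⟩
    exact ⟨fun h => absurd h h1, fun h => absurd h2 h⟩
  · have h1 := half v u hv hu hx hy
    have h2 : ∃ s, lab k s = c ∧ x s < x u ∧ y s < y u := ⟨v, hv, hx, hy⟩
    exact ⟨fun _ => h1, fun _ => h2⟩

/-- There is a (connected) planar graph `G` such that for every even subdivision `G'` of `G` the
complement of `G'` is not an {L}-graph. -/
theorem result : ∃ (n : ℕ) (G : SimpleGraph (Fin n)), G.Connected ∧ HasPlaneDrawing G ∧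
    ∀ k : OEdge G → ℕ, (∀ e, Even (k e)) → ¬ IsLGraph (subdivision G k)ᶜ :=
  ⟨35, GG, GG_connected, GG_planar, not_LGraph⟩

end Pool.Agent.Results.MP_401231_co.NoLComplement
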